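import Pool.Agent.Helper80.AD.GoalsA
import Pool.Agent.Helper80.AD.Le

/-!
# Project AD, packet ABS: growth of a sequence
-/

set_option autoImplicit false

noncomputable section

namespace Pool.Agent.Helper15.AD

open Pool.Agent.Helper80.AD

theorem hat_nonneg {X : Type} (x : X) (b : Option X) :
    0 ≤ (Finsupp.single (some x) (1 : ℝ) + Finsupp.single none 1 : Option X →₀ ℝ) b := by
  classical
  rw [Finsupp.add_apply, Finsupp.single_apply, Finsupp.single_apply]
  split_ifs <;> norm_num

theorem hc_hat {X P : Type} (h : X → P → ℝ) (cst : P → ℝ) (x : X) (v : P) :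
    hc (hO h cst) (Finsupp.single (some x) (1 : ℝ) + Finsupp.single none 1) v = h x v + cst v := by
  rw [hc_add, hc_single, hc_single]
  simp [hO]

theorem EE_zero {X : Type} {k : ℕ} {E : (Fin (k + 1) → Option X) → ℝ}
    (hE : ∀ (Y : Fin (k + 1) → Option X) (i j : Fin (k + 1)), i ≠ j → Y i = none → Y j = none → E Y = 0)
    (c : Fin (k + 1) → Option X →₀ ℝ) {i j : Fin (k + 1)} (hij : i ≠ j)
    (hi : c i = Finsupp.single none 1) (hj : c j = Finsupp.single none 1) : EE E c = 0 := by
  classical
  unfold EE
  refine Finset.sum_eq_zero fun J hJ => ?_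
  rw [Fintype.mem_piFinset] at hJ
  have h1 := hJ i
  have h2 := hJ j
  rw [hi] at h1
  rw [hj] at h2
  have h1' : J i = none := by
    have := Finsupp.support_single_subset h1
    simpa using this
  have h2' : J j = none := by
    have := Finsupp.support_single_subset h2
    simpa using this
  rw [hE J i j hij h1' h2', mul_zero]

theorem abs (hGROW : S_GROW) : S_ABS := by
  classical
  intro k X P h cst Pr E hMF hE ι _ u ref lam x κ href hu hLN hlam hκ hlow hup hpos
  set u' : Option ι → P → ℝ := fun o => o.elim cst u with hu'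
  set lam' : Option ι → ℝ := fun o => o.elim 1 lam with hlam'
  have hcst : ∀ v, 0 ≤ cst v := fun v => by simpa [hO] using hMF.hn none v
  have hh : ∀ y v, 0 ≤ h y v := fun y v => by simpa [hO] using hMF.hn (some y) v
  have hlam'0 : ∀ o, 0 < lam' o := by
    intro o
    cases o with
    | none => exact one_pos
    | some i => exact hlam i
  have hu'0 : ∀ o v, 0 ≤ u' o v := by
    intro o v
    cases o with
    | none => exact hcst v
    | some i => exact hu i v
  have hLN' : ∀ o, LNef (hO h cst) Pr ref (u' o) := by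
    intro o
    cases o with
    | some i => exact hLN i
    | none =>
      intro ε hε
      refine ⟨Finsupp.single none 1, fun b => ?_, Le'.of_le fun v => ?_, Le'.of_le fun v => ?_⟩
      · rw [Finsupp.single_apply]
        split_ifs <;> norm_num
      · rw [hc_single]
        simp [hO, hu']
      · rw [hc_single]
        have h1 := hc_nonneg (hO h cst) hMF.hn href v
        have h2 : 0 ≤ ε * hc (hO h cst) ref v := mul_nonneg hε.le h1
        have e : (1 : ℝ) * hO h cst none v = cst v := by simp [hO]
        have e2 : u' none v = cst v := rfl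
        rw [e, e2]
        linarith
  obtain ⟨β, hβ0, hβb, hβc, hβd⟩ :=
    hGROW k (Option X) P (hO h cst) Pr E hMF (Option ι) u' ref href hu'0 hLN'
  set A : (Fin (k + 1) → Option ι) → ℝ := fun I => ∏ j, lam' (I j) with hA
  have hA0 : ∀ I, 0 < A I := fun I => Finset.prod_pos fun j _ => hlam'0 _
  -- (A)
  have hAA : ∀ n o, Le' Pr (fun v => lam' o ^ n * u' o v)
      (fun v => (2 * κ n) * hc (hO h cst)
        (Finsupp.single (some (x n)) (1 : ℝ) + Finsupp.single none 1) v) := by
    intro n o
    have hκn := hκ n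
    cases o with
    | some i =>
      refine (hlow n i).mono (fun v => le_rfl) fun v => ?_
      rw [hc_hat]
      have h1 : 0 ≤ κ n * (h (x n) v + cst v) :=
        mul_nonneg (by linarith) (add_nonneg (hh _ _) (hcst v))
      linarith
    | none =>
      refine Le'.of_le fun v => ?_
      rw [hc_hat]
      have e1 : lam' none ^ n * u' none v = cst v := by simp [hlam', hu']
      rw [e1]
      have h1 := hh (x n) v
      have h2 := hcst v
      nlinarith [mul_nonneg (by linarith : (0 : ℝ) ≤ κ n) h1, mul_le_mul_of_nonneg_right hκn h2]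
  -- (B)
  have hBB : ∀ n, Le' Pr (hc (hO h cst)
        (Finsupp.single (some (x n)) (1 : ℝ) + Finsupp.single none 1))
      (fun v => (2 * κ n) * ∑ o, lam' o ^ n * u' o v) := by
    intro n
    have hκn := hκ n
    refine ((hup n).add (Le'.refl (Pr := Pr) cst)).mono (fun v => ?_) fun v => ?_
    · rw [hc_hat]
    · rw [Fintype.sum_option]
      have e1 : lam' none ^ n * u' none v = cst v := by simp [hlam', hu']
      have e2 : ∑ i, lam' (some i) ^ n * u' (some i) v = ∑ i, lam i ^ n * u i v := rfl
      rw [e1, e2]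
      have h2 := hcst v
      have h3 : 0 ≤ ∑ i, lam i ^ n * u i v :=
        Finset.sum_nonneg fun i _ => mul_nonneg (pow_nonneg (hlam i).le n) (hu i v)
      nlinarith [mul_nonneg (by linarith : (0 : ℝ) ≤ κ n) h3, mul_le_mul_of_nonneg_right hκn h2]
  have hlo : ∀ n I, A I ^ n * β I ≤ (2 * κ n) ^ (k + 1) *
      EE E (fun _ => Finsupp.single (some (x n)) 1 + Finsupp.single none 1) := by
    intro n I
    have h1 := hβc (Finsupp.single (some (x n)) (1 : ℝ) + Finsupp.single none 1)
      (fun o => lam' o ^ n) (2 * κ n) (hat_nonneg (x n)) (fun o => pow_pos (hlam'0 o) n)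
      (by have := hκ n; linarith) (hAA n) I
    rwa [Finset.prod_pow] at h1
  have hhi : ∀ n, EE E (fun _ => Finsupp.single (some (x n)) 1 + Finsupp.single none 1) ≤
      (2 * κ n) ^ (k + 1) * ∑ I : Fin (k + 1) → Option ι, A I ^ n * β I := by
    intro n
    have h1 := hβd (Finsupp.single (some (x n)) (1 : ℝ) + Finsupp.single none 1)
      (fun o => lam' o ^ n) (2 * κ n) (hat_nonneg (x n)) (fun o => pow_pos (hlam'0 o) n)
      (by have := hκ n; linarith) (hBB n)
    refine h1.trans (le_of_eq ?_)
    congr 1
    refine Finset.sum_congr rfl fun I _ => ?_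
    rw [Finset.prod_pow]
  -- two entries `none`
  have hdouble : ∀ I : Fin (k + 1) → Option ι, 0 < β I → ∀ i j, I i = none → I j = none → i = j := by
    intro I hI i j hi hj
    by_contra hij
    choose c₀ hc0 hc1 _ using fun o => hLN' o 1 one_pos
    set c₁ : Option ι → Option X →₀ ℝ :=
      fun o => if o = none then Finsupp.single none 1 else c₀ o with hc₁
    have hle := hβb I (fun l => c₁ (I l)) (fun l b => by
      simp only [hc₁]
      split_ifs with hl
      · rw [Finsupp.single_apply]
        split_ifs <;> norm_num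
      · exact hc0 _ b) (fun l => by
      by_cases hl : I l = none
      · refine Le'.of_le fun v => ?_
        simp only [hc₁, hl, if_true]
        rw [hc_single]
        simp [hO, hu']
      · have e : c₁ (I l) = c₀ (I l) := by simp only [hc₁]; rw [if_neg hl]
        rw [e]
        exact hc1 _)
    have h0 : EE E (fun l => c₁ (I l)) = 0 :=
      EE_zero hE _ hij (by simp only [hc₁, hi, if_true]) (by simp only [hc₁, hj, if_true])
    rw [h0] at hle
    linarith
  -- a positive one
  have hex : ∃ I, 0 < β I := by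
    by_contra hne
    push Not at hne
    have h1 := hhi 0
    have h2 : ∑ I : Fin (k + 1) → Option ι, A I ^ 0 * β I ≤ 0 := by
      refine Finset.sum_nonpos fun I _ => ?_
      rw [pow_zero, one_mul]
      exact hne I
    have h3 : (0 : ℝ) ≤ (2 * κ 0) ^ (k + 1) := by
      have := hκ 0
      positivity
    have h4 := mul_nonpos_of_nonneg_of_nonpos h3 h2
    linarith
  obtain ⟨I₀, hI₀⟩ := hex
  obtain ⟨I₁, hI₁, hmax⟩ := Finset.exists_max_image
    ((Finset.univ : Finset (Fin (k + 1) → Option ι)).filter fun I => 0 < β I) A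
    ⟨I₀, Finset.mem_filter.2 ⟨Finset.mem_univ _, hI₀⟩⟩
  have hβ1 : 0 < β I₁ := (Finset.mem_filter.1 hI₁).2
  have hmax' : ∀ I, 0 < β I → A I ≤ A I₁ := fun I hI =>
    hmax I (Finset.mem_filter.2 ⟨Finset.mem_univ _, hI⟩)
  refine ⟨A I₁, hA0 I₁, ?_, β I₁ / 2 ^ (k + 1), 2 ^ (k + 1) * ∑ I, β I, by positivity, fun n => ⟨?_, ?_⟩⟩
  · by_cases hnone : ∃ i, I₁ i = none
    · obtain ⟨i, hi⟩ := hnone
      refine ⟨k, Or.inl rfl, ?_⟩
      have h1 : ∀ j : Fin k, ∃ l, I₁ (i.succAbove j) = some l := by
        intro j
        rw [← Option.ne_none_iff_exists']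
        intro hj
        exact Fin.succAbove_ne i j (hdouble I₁ hβ1 _ _ hj hi)
      choose l hl using h1
      refine ⟨l, ?_⟩
      simp only [hA]
      rw [Fin.prod_univ_succAbove _ i, hi]
      have e : lam' none = 1 := rfl
      rw [e, one_mul]
      refine Finset.prod_congr rfl fun j _ => ?_
      rw [hl j]
      rfl
    · push Not at hnone
      refine ⟨k + 1, Or.inr rfl, ?_⟩
      have h1 : ∀ j : Fin (k + 1), ∃ l, I₁ j = some l := by
        intro j
        rw [← Option.ne_none_iff_exists']
        exact hnone j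
      choose l hl using h1
      refine ⟨l, ?_⟩
      simp only [hA]
      refine Finset.prod_congr rfl fun j _ => ?_
      rw [hl j]
      rfl
  · have h1 := hlo n I₁
    rw [mul_pow] at h1
    rw [div_mul_eq_mul_div, div_le_iff₀ (by positivity)]
    calc β I₁ * A I₁ ^ n = A I₁ ^ n * β I₁ := by ring
      _ ≤ _ := h1
      _ = _ := by ring
  · have h1 := hhi n
    have h2 : ∑ I : Fin (k + 1) → Option ι, A I ^ n * β I ≤ (∑ I, β I) * A I₁ ^ n := by
      rw [Finset.sum_mul]
      refine Finset.sum_le_sum fun I _ => ?_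
      rcases (hβ0 I).lt_or_eq with hI | hI
      · rw [mul_comm]
        exact mul_le_mul_of_nonneg_left (pow_le_pow_left₀ (hA0 I).le (hmax' I hI) n) hI.le
      · rw [← hI]
        simp
    have h3 : (0 : ℝ) ≤ (2 * κ n) ^ (k + 1) := by
      have := hκ n
      positivity
    calc EE E (fun _ => Finsupp.single (some (x n)) 1 + Finsupp.single none 1)
        ≤ (2 * κ n) ^ (k + 1) * ∑ I : Fin (k + 1) → Option ι, A I ^ n * β I := h1
      _ ≤ (2 * κ n) ^ (k + 1) * ((∑ I, β I) * A I₁ ^ n) := mul_le_mul_of_nonneg_left h2 h3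
      _ = 2 ^ (k + 1) * (∑ I, β I) * κ n ^ (k + 1) * A I₁ ^ n := by rw [mul_pow]; ring

end Pool.Agent.Helper15.AD
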